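import Mathlib

/-!
# Determinant versus diagonal product for diagonally balanced positive matrices

If `J` is symmetric, entrywise positive and diagonally balanced, then
`det J / ∏ J_ii ≤ 2 (1 - 1/(n-1))^(n-1)`.

Normalise `M = D^{-1/2} J D^{-1/2}` with `D = diag (J_ii)`.  Then `M` is positive semidefinite,
has trace `n` and eigenvalue `2`, and the arithmetic-geometric mean inequality for the
remaining `n - 1` eigenvalues gives the bound.
-/

open Matrix Finset

namespace Pool.Agent.Results.MP_fab4c6_an.BalancedDeterminant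

variable {n : ℕ}

/-- Power form of the arithmetic-geometric mean inequality. -/
lemma prod_le_pow {ι : Type*} (s : Finset ι) (z : ι → ℝ) (hz : ∀ i ∈ s, 0 ≤ z i)
    (hs : 0 < s.card) : ∏ i ∈ s, z i ≤ ((∑ i ∈ s, z i) / s.card) ^ s.card := by
  have hc : (0 : ℝ) < s.card := by exact_mod_cast hs
  have h := Real.geom_mean_le_arith_mean_weighted s (fun _ => 1 / (s.card : ℝ)) z
    (fun i _ => by positivity) (by rw [Finset.sum_const, nsmul_eq_mul]; field_simp) hz
  have h1 : (∏ i ∈ s, z i ^ (1 / (s.card : ℝ))) ^ s.card = ∏ i ∈ s, z i := by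
    rw [← Finset.prod_pow]
    apply Finset.prod_congr rfl
    intro i hi
    rw [← Real.rpow_natCast, ← Real.rpow_mul (hz i hi)]
    rw [one_div, inv_mul_cancel₀ hc.ne', Real.rpow_one]
  have h2 : ∑ i ∈ s, (1 / (s.card : ℝ)) * z i = (∑ i ∈ s, z i) / s.card := by
    rw [← Finset.mul_sum]; ring
  rw [h2] at h
  calc ∏ i ∈ s, z i = (∏ i ∈ s, z i ^ (1 / (s.card : ℝ))) ^ s.card := h1.symm
    _ ≤ _ := pow_le_pow_left₀ (Finset.prod_nonneg fun i hi => Real.rpow_nonneg (hz i hi) _) h _

/-- A balanced symmetric matrix with positive entries is positive semidefinite. -/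
lemma quad_nonneg (J : Matrix (Fin n) (Fin n) ℝ) (hs : ∀ i j, J i j = J j i)
    (hp : ∀ i j, 0 < J i j) (hb : ∀ i, J i i = ∑ j ∈ univ.erase i, J i j) (x : Fin n → ℝ) :
    0 ≤ ∑ i, ∑ j, x i * J i j * x j := by
  have h1 : ∀ i, ∑ j, x i * J i j * x j
      = ∑ j ∈ univ.erase i, (J i j * (x i * x i) + J i j * (x i * x j)) := by
    intro i
    rw [← Finset.add_sum_erase univ (fun j => x i * J i j * x j) (mem_univ i)]
    rw [Finset.sum_add_distrib, ← Finset.sum_mul, ← hb i]
    congr 1
    · ring
    · apply Finset.sum_congr rfl; intro j _; ring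
  have h2 : ∑ i, ∑ j, x i * J i j * x j
      = ∑ i, ∑ j, (if j = i then 0 else (J i j * (x i * x i) + J i j * (x i * x j))) := by
    apply Finset.sum_congr rfl
    intro i _
    rw [h1 i, ← Finset.filter_ne' univ i, Finset.sum_filter]
    apply Finset.sum_congr rfl
    intro j _
    by_cases h : j = i <;> simp [h]
  have h3 : ∑ i, ∑ j, x i * J i j * x j
      = ∑ i, ∑ j, (if j = i then 0 else (J i j * (x j * x j) + J i j * (x i * x j))) := by
    rw [h2, Finset.sum_comm]
    apply Finset.sum_congr rfl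
    intro i _
    apply Finset.sum_congr rfl
    intro j _
    by_cases h : j = i
    · subst h; simp
    · have h' : ¬ i = j := fun h' => h h'.symm
      rw [if_neg h, if_neg h', hs j i]
      ring
  have h4 : 2 * ∑ i, ∑ j, x i * J i j * x j
      = ∑ i, ∑ j, (if j = i then 0 else J i j * (x i + x j) ^ 2) := by
    rw [two_mul]
    nth_rewrite 1 [h2]
    rw [h3, ← Finset.sum_add_distrib]
    apply Finset.sum_congr rfl
    intro i _
    rw [← Finset.sum_add_distrib]
    apply Finset.sum_congr rfl
    intro j _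
    by_cases h : j = i
    · simp [h]
    · simp only [h, if_false]; ring
  have h5 : 0 ≤ ∑ i, ∑ j, (if j = i then 0 else J i j * (x i + x j) ^ 2) := by
    apply Finset.sum_nonneg; intro i _
    apply Finset.sum_nonneg; intro j _
    split_ifs
    · exact le_rfl
    · exact mul_nonneg (hp i j).le (sq_nonneg _)
  linarith

/-- The main inequality for the matrices of the problem. -/
theorem main (hn : 3 ≤ n) (J : Matrix (Fin n) (Fin n) ℝ) (hs : ∀ i j, J i j = J j i)
    (hp : ∀ i j, 0 < J i j) (hb : ∀ i, J i i = ∑ j ∈ univ.erase i, J i j) :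
    J.det / ∏ i, J i i ≤ 2 * (1 - 1 / ((n : ℝ) - 1)) ^ (n - 1) := by
  classical
  set d : Fin n → ℝ := fun i => Real.sqrt (J i i) with hd
  have hdp : ∀ i, 0 < d i := fun i => Real.sqrt_pos.mpr (hp i i)
  have hdd : ∀ i, d i * d i = J i i := fun i => Real.mul_self_sqrt (hp i i).le
  set M : Matrix (Fin n) (Fin n) ℝ :=
    diagonal (fun i => (d i)⁻¹) * J * diagonal (fun i => (d i)⁻¹) with hM
  have hMe : ∀ i j, M i j = (d i)⁻¹ * J i j * (d j)⁻¹ := by
    intro i j
    rw [hM, Matrix.mul_diagonal, Matrix.diagonal_mul]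
  have hdet : M.det = J.det / ∏ i, J i i := by
    rw [hM, det_mul, det_mul, det_diagonal]
    have : ∏ i, J i i = (∏ i, d i) * ∏ i, d i := by
      rw [← Finset.prod_mul_distrib]
      exact Finset.prod_congr rfl fun i _ => (hdd i).symm
    rw [this, Finset.prod_inv_distrib]
    have hne : ∏ i, d i ≠ 0 := Finset.prod_ne_zero_iff.mpr fun i _ => (hdp i).ne'
    field_simp
  have hH : M.IsHermitian := by
    ext i j
    simp only [conjTranspose_apply, star_trivial]
    rw [hMe, hMe, hs j i]; ring
  have hPSD : M.PosSemidef := by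
    refine PosSemidef.of_dotProduct_mulVec_nonneg hH ?_
    intro x
    have := quad_nonneg J hs hp hb (fun i => (d i)⁻¹ * x i)
    simp only [dotProduct, mulVec, star_trivial, Pi.star_apply]
    refine this.trans_eq ?_
    apply Finset.sum_congr rfl
    intro i _
    rw [Finset.mul_sum]
    apply Finset.sum_congr rfl
    intro j _
    rw [hMe]; ring
  have htr : ∑ i, hH.eigenvalues i = n := by
    have h := hH.trace_eq_sum_eigenvalues
    have h2 : M.trace = n := by
      rw [trace]
      have : ∀ i, M.diag i = 1 := by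
        intro i
        rw [diag_apply, hMe, ← hdd i]
        have := (hdp i).ne'
        field_simp
      have e : ∑ i, M.diag i = ∑ _i : Fin n, (1 : ℝ) := Finset.sum_congr rfl fun i _ => this i
      rw [e]; simp
    rw [h2] at h
    have h3 : ((∑ i, hH.eigenvalues i : ℝ)) = n := by
      simpa using h.symm
    exact h3
  -- `2` is an eigenvalue
  have hvec : M *ᵥ d = fun i => 2 * d i := by
    funext i
    simp only [mulVec, dotProduct]
    have : ∀ j, M i j * d j = (d i)⁻¹ * J i j := by
      intro j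
      rw [hMe]
      have := (hdp j).ne'
      field_simp
    simp only [this]
    rw [← Finset.mul_sum, ← Finset.add_sum_erase univ (fun j => J i j) (mem_univ i), ← hb i,
      ← hdd i]
    have := (hdp i).ne'
    field_simp
    ring
  have h2mem : (2 : ℝ) ∈ spectrum ℝ M := by
    rw [← Matrix.spectrum_toLin']
    apply Module.End.HasEigenvalue.mem_spectrum
    apply Module.End.hasEigenvalue_of_hasEigenvector (x := d)
    rw [Module.End.hasEigenvector_iff, Module.End.mem_eigenspace_iff]
    refine ⟨?_, ?_⟩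
    · rw [Matrix.toLin'_apply, hvec]
      funext i; simp
    · intro h0
      have := congrFun h0 ⟨0, by omega⟩
      exact (hdp _).ne' this
  rw [hH.spectrum_real_eq_range_eigenvalues] at h2mem
  obtain ⟨k, hk⟩ := h2mem
  have hnn : ∀ i, 0 ≤ hH.eigenvalues i := hPSD.eigenvalues_nonneg
  have hcard : (univ.erase k : Finset (Fin n)).card = n - 1 := by
    rw [Finset.card_erase_of_mem (mem_univ k), Finset.card_univ, Fintype.card_fin]
  have hsum : ∑ i ∈ univ.erase k, hH.eigenvalues i = (n : ℝ) - 2 := by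
    have := Finset.add_sum_erase univ (fun i => hH.eigenvalues i) (mem_univ k)
    rw [hk, htr] at this
    linarith
  have hprod := prod_le_pow (univ.erase k) hH.eigenvalues (fun i _ => hnn i)
    (by rw [hcard]; omega)
  rw [hcard, hsum] at hprod
  have hdet2 : M.det = ∏ i, hH.eigenvalues i := by
    rw [hH.det_eq_prod_eigenvalues]; simp
  rw [← hdet, hdet2,
    ← Finset.mul_prod_erase univ (fun i => hH.eigenvalues i) (mem_univ k)]
  have hn1 : ((n - 1 : ℕ) : ℝ) = (n : ℝ) - 1 := by
    rw [Nat.cast_sub (by omega)]; simp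
  have hn2 : (0 : ℝ) < (n : ℝ) - 1 := by
    have : (3 : ℝ) ≤ n := by exact_mod_cast hn
    linarith
  rw [hn1] at hprod
  have e : ((n : ℝ) - 2) / ((n : ℝ) - 1) = 1 - 1 / ((n : ℝ) - 1) := by
    field_simp; ring
  rw [e] at hprod
  rw [hk]
  linarith

/-- **Positive answer to Q1**: for every `n ≥ 3` and every real symmetric `n × n` matrix `J` with
strictly positive entries which is diagonally balanced (`|J_ii| = ∑_{j ≠ i} |J_ij|`),
`det J / ∏ J_ii ≤ 2 (1 - 1/(n-1))^(n-1)`. -/
theorem result : ∀ n : ℕ, 3 ≤ n → ∀ J : Matrix (Fin n) (Fin n) ℝ, J.IsSymm →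
    (∀ i j, 0 < J i j) → (∀ i, |J i i| - ∑ j ∈ univ.erase i, |J i j| = 0) →
    J.det / ∏ i, J i i ≤ 2 * (1 - 1 / ((n : ℝ) - 1)) ^ (n - 1) := by
  intro n hn J hs hp hb
  refine main hn J (fun i j => (hs.apply i j).symm) hp (fun i => ?_)
  have := hb i
  rw [abs_of_pos (hp i i)] at this
  have h2 : ∑ j ∈ univ.erase i, |J i j| = ∑ j ∈ univ.erase i, J i j :=
    Finset.sum_congr rfl fun j _ => abs_of_pos (hp i j)
  rw [h2] at this
  linarith

end Pool.Agent.Results.MP_fab4c6_an.BalancedDeterminant
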